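import Mathlib
import Pool.Agent.H607Z.Flute.Green

open UpperHalfPlane Pool.Agent.H607Z.Flute

/-- There is a non-decreasing sequence of lengths such that, whatever the twists, the flute
surface (any nonempty open invariant piece of the half plane modulo the flute group) carries a
Green function. -/
theorem Pool.Agent.Results.MP_b90f02_an.ANotParabolic.result :
    ∃ ℓ : ℕ → ℝ, (∀ n, 0 < ℓ n) ∧ Monotone ℓ ∧ ∀ (t : ℕ → ℝ) (U : Set ℍ), IsOpen U → U.Nonempty →
      (∀ γ ∈ fluteGroup ℓ t, ∀ z ∈ U, γ • z ∈ U) →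
      ∃ p ∈ U, ∃ g : ℍ → ℝ, IsGreen (fluteGroup ℓ t) U p g :=
  ⟨len, len_pos, len_mono, fun t _ hU hne hUΓ => flute_green t hU hne hUΓ⟩
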